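import Mathlib

set_option autoImplicit false

namespace Pool.Agent.Results.MP_af8792_co.QuadraticGrowth

open Finset

/-- A configuration on the grid `[m] × [n]`: `E1` is the set of 1-edges (cells), `E2` the set of
2-edges, a 2-edge `(i,j;k,l)` being the pair of cells `((i,j),(k,l))` with `i ≠ k` and `j ≠ l`. No
cell is occupied by two different edges (so at most one of `(c,d)` and `(d,c)` is present). -/
structure Config (m n : ℕ) where
  E1 : Finset (Fin m × Fin n)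
  E2 : Finset ((Fin m × Fin n) × (Fin m × Fin n))
  rows_cols_ne : ∀ e ∈ E2, e.1.1 ≠ e.2.1 ∧ e.1.2 ≠ e.2.2
  disj_one_two : ∀ e ∈ E2, e.1 ∉ E1 ∧ e.2 ∉ E1
  disj_two_two : ∀ e ∈ E2, ∀ f ∈ E2, e ≠ f → e.1 ≠ f.1 ∧ e.1 ≠ f.2 ∧ e.2 ≠ f.1 ∧ e.2 ≠ f.2

/-- The cell `c` is occupied by some edge. -/
def Config.Occ {m n : ℕ} (G : Config m n) (c : Fin m × Fin n) : Prop :=
  c ∈ G.E1 ∨ ∃ e ∈ G.E2, c = e.1 ∨ c = e.2

/-- `G` contains a generalized `C₄`-cycle. -/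
def Config.HasGenC4 {m n : ℕ} (G : Config m n) : Prop :=
  (∃ i k : Fin m, ∃ j l : Fin n, i ≠ k ∧ j ≠ l ∧
    (i, j) ∈ G.E1 ∧ (i, l) ∈ G.E1 ∧ (k, j) ∈ G.E1 ∧ (k, l) ∈ G.E1) ∨
  (∃ i k : Fin m, ∃ j l : Fin n, ((i, j), (k, l)) ∈ G.E2 ∧ G.Occ (i, l) ∧ G.Occ (k, j)) ∨
  (∃ i p : Fin m, ∃ j q : Fin n, ((i, j), (p, q)) ∈ G.E2 ∧ ∃ k : Fin m, ∃ l : Fin n,
    [(k, l), (k, j), (k, q), (i, l), (p, l)].Nodup ∧
    G.Occ (k, l) ∧ G.Occ (k, j) ∧ G.Occ (k, q) ∧ G.Occ (i, l) ∧ G.Occ (p, l))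

/-- The double Zarankiewicz number. -/
noncomputable def z2 (m n : ℕ) : ℕ :=
  sSup {t : ℕ | ∃ G : Config m n, ¬ G.HasGenC4 ∧ G.E1.card + G.E2.card = t}

lemma bdd (m n : ℕ) : ∀ G : Config m n, G.E1.card + G.E2.card ≤ m * n := by
  intro G
  have hinj : Set.InjOn (fun e : (Fin m × Fin n) × (Fin m × Fin n) => e.1) (G.E2 : Set _) := by
    intro e he f hf hef
    by_contra hne
    exact (G.disj_two_two e he f hf hne).1 hef
  have h1 : (G.E2.image (fun e => e.1)).card = G.E2.card := Finset.card_image_of_injOn hinj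
  have h2 : Disjoint G.E1 (G.E2.image (fun e => e.1)) := by
    rw [Finset.disjoint_right]
    intro c hc
    rw [Finset.mem_image] at hc
    obtain ⟨e, he, rfl⟩ := hc
    exact (G.disj_one_two e he).1
  rw [← h1, ← Finset.card_union_of_disjoint h2]
  calc _ ≤ (univ : Finset (Fin m × Fin n)).card := Finset.card_le_card (subset_univ _)
    _ = m * n := by simp

/-- The two blocks. -/
def blk (m n : ℕ) : Config m n where
  E1 := ∅
  E2 := (univ : Finset (Fin (m / 2) × Fin (n / 2))).image (fun c =>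
    ((⟨c.1.1, by have := c.1.2; omega⟩, ⟨c.2.1, by have := c.2.2; omega⟩),
     (⟨c.1.1 + m / 2, by have := c.1.2; omega⟩, ⟨c.2.1 + n / 2, by have := c.2.2; omega⟩)))
  rows_cols_ne := by
    intro e he
    rw [Finset.mem_image] at he
    obtain ⟨⟨a, b⟩, -, rfl⟩ := he
    have := a.2; have := b.2
    refine ⟨?_, ?_⟩
    · intro h; rw [Fin.ext_iff] at h; simp at h; omega
    · intro h; rw [Fin.ext_iff] at h; simp at h; omega
  disj_one_two := by simp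
  disj_two_two := by
    intro e he f hf hef
    rw [Finset.mem_image] at he hf
    obtain ⟨⟨a, b⟩, -, rfl⟩ := he
    obtain ⟨⟨c, d⟩, -, rfl⟩ := hf
    have ha := a.2; have hb := b.2; have hc := c.2; have hd := d.2
    have hne : a.1 ≠ c.1 ∨ b.1 ≠ d.1 := by
      by_contra hcon
      push Not at hcon
      apply hef
      have h1 : a = c := Fin.ext hcon.1
      have h2 : b = d := Fin.ext hcon.2
      rw [h1, h2]
    refine ⟨?_, ?_, ?_, ?_⟩ <;> · simp only [ne_eq, Prod.mk.injEq, Fin.mk.injEq]; omega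

lemma blk_card (m n : ℕ) : (blk m n).E1.card + (blk m n).E2.card = (m / 2) * (n / 2) := by
  have h : (blk m n).E2.card = (m / 2) * (n / 2) := by
    unfold blk
    rw [Finset.card_image_of_injective]
    · simp
    · intro c d h
      simp only [Prod.mk.injEq, Fin.mk.injEq] at h
      exact Prod.ext (Fin.ext h.1.1) (Fin.ext h.1.2)
  rw [h]
  simp [blk]

lemma blk_occ {m n : ℕ} {c : Fin m × Fin n} (h : (blk m n).Occ c) :
    (c.1.1 < m / 2 ∧ c.2.1 < n / 2) ∨ (m / 2 ≤ c.1.1 ∧ n / 2 ≤ c.2.1) := by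
  rcases h with h | ⟨e, he, h⟩
  · simp [blk] at h
  · simp only [blk, Finset.mem_image, mem_univ, true_and] at he
    obtain ⟨⟨a, b⟩, rfl⟩ := he
    have ha := a.2; have hb := b.2
    rcases h with rfl | rfl
    · left; exact ⟨ha, hb⟩
    · right; exact ⟨by simp, by simp⟩

lemma blk_mem {m n : ℕ} {i p : Fin m} {j q : Fin n} (h : ((i, j), (p, q)) ∈ (blk m n).E2) :
    i.1 < m / 2 ∧ j.1 < n / 2 ∧ m / 2 ≤ p.1 ∧ n / 2 ≤ q.1 := by
  simp only [blk, Finset.mem_image, mem_univ, true_and] at h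
  obtain ⟨⟨a, b⟩, h⟩ := h
  simp only [Prod.mk.injEq] at h
  obtain ⟨⟨rfl, rfl⟩, rfl, rfl⟩ := h
  have ha := a.2; have hb := b.2
  simp only
  omega

lemma blk_free (m n : ℕ) : ¬ (blk m n).HasGenC4 := by
  rintro (⟨i, k, j, l, _, _, h, _⟩ | ⟨i, k, j, l, h, h1, _⟩ | ⟨i, p, j, q, h, k, l, _, _, h2, h3, _⟩)
  · simp [blk] at h
  · have h4 := blk_mem h
    have h5 := blk_occ h1
    simp only at h5
    omega
  · have h4 := blk_mem h
    have h5 := blk_occ h2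
    have h6 := blk_occ h3
    simp only at h5 h6
    omega

/-- `⌊m/2⌋⌊n/2⌋ ≤ z₂(m,n) ≤ mn` for all `m, n`, and `z₂(m,n)` is not `O(m n^{1/2} + n)`. -/
theorem result :
    (∀ m n : ℕ, (m / 2) * (n / 2) ≤ z2 m n ∧ z2 m n ≤ m * n) ∧
    ¬ ∃ C : ℝ, ∀ m n : ℕ, 2 ≤ m → 2 ≤ n → (z2 m n : ℝ) ≤ C * (m * (n : ℝ) ^ (1 / 2 : ℝ) + n) := by
  have key : ∀ m n : ℕ, (m / 2) * (n / 2) ≤ z2 m n ∧ z2 m n ≤ m * n := by
    intro m n
    constructor
    · apply le_csSup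
      · refine ⟨m * n, ?_⟩
        rintro t ⟨G, -, rfl⟩
        exact bdd m n G
      · exact ⟨blk m n, blk_free m n, blk_card m n⟩
    · apply csSup_le
      · exact ⟨_, blk m n, blk_free m n, rfl⟩
      · rintro t ⟨G, -, rfl⟩
        exact bdd m n G
  refine ⟨key, ?_⟩
  rintro ⟨C, hC⟩
  -- take `m = n = (2 t)^2`
  obtain ⟨t, ht⟩ := exists_nat_gt (|C| * 4 + 1)
  have ht1 : 1 ≤ t := by
    have : (0 : ℝ) ≤ |C| := abs_nonneg C
    have h : (1 : ℝ) < t := by linarith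
    exact_mod_cast h.le
  have h1 := hC ((2 * t) ^ 2) ((2 * t) ^ 2) (by nlinarith) (by nlinarith)
  have h2 := (key ((2 * t) ^ 2) ((2 * t) ^ 2)).1
  have h3 : (2 * t) ^ 2 / 2 = 2 * t ^ 2 := by
    rw [show (2 * t) ^ 2 = 2 * (2 * t ^ 2) by ring, Nat.mul_div_cancel_left _ (by norm_num)]
  rw [h3] at h2
  have h4 : (((2 * t ^ 2) * (2 * t ^ 2) : ℕ) : ℝ) ≤ z2 ((2 * t) ^ 2) ((2 * t) ^ 2) := by
    exact_mod_cast h2
  have h5 : ((((2 * t) ^ 2 : ℕ) : ℝ)) ^ (1 / 2 : ℝ) = 2 * t := by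
    rw [← Real.sqrt_eq_rpow]
    push_cast
    rw [Real.sqrt_sq (by positivity)]
  rw [h5] at h1
  have h6 := h4.trans h1
  push_cast at h6
  have ht0 : (1 : ℝ) ≤ t := by exact_mod_cast ht1
  have h7 : C * ((2 * (t : ℝ)) ^ 2 * (2 * t) + (2 * t) ^ 2) ≤ |C| * ((2 * (t : ℝ)) ^ 2 * (2 * t) + (2 * t) ^ 2) := by
    apply mul_le_mul_of_nonneg_right (le_abs_self C) (by positivity)
  have h8 : |C| * ((2 * (t : ℝ)) ^ 2 * (2 * t) + (2 * t) ^ 2) ≤ |C| * (12 * t ^ 3) := by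
    apply mul_le_mul_of_nonneg_left _ (abs_nonneg C)
    nlinarith [pow_pos (by linarith : (0:ℝ) < t) 2, pow_pos (by linarith : (0:ℝ) < t) 3]
  have h9 : 4 * (t : ℝ) ^ 4 ≤ |C| * (12 * t ^ 3) := by
    calc 4 * (t : ℝ) ^ 4 = 2 * t ^ 2 * (2 * t ^ 2) := by ring
      _ ≤ _ := h6.trans (h7.trans h8)
  have h10 : (t : ℝ) ^ 3 * (4 * t) ≤ t ^ 3 * (12 * |C|) := by linarith
  have h11 := le_of_mul_le_mul_left h10 (by positivity)
  linarith [abs_nonneg C]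

end Pool.Agent.Results.MP_af8792_co.QuadraticGrowth
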